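import Pool.Agent.Run7.h402.PG.Iface

/-!
# Piece MOA of project PG: the large prime factors do not matter
-/

set_option autoImplicit false

open Finset

namespace Run7.h53.PG

lemma fac_le {p : ℕ} {L : ℝ} (hp : 2 ≤ p) (hL : 0 < L) (h : L / 8 < p) :
    0 < (1 - 1 / (p : ℝ))⁻¹ ∧ (1 - 1 / (p : ℝ))⁻¹ ≤ Real.exp (16 / L) := by
  have hp' : (2 : ℝ) ≤ p := by exact_mod_cast hp
  have hp0 : (0 : ℝ) < p := by linarith
  have h1 : 1 / (p : ℝ) ≤ 1 / 2 := one_div_le_one_div_of_le (by norm_num) hp'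
  have h2 : (0 : ℝ) < 1 - 1 / (p : ℝ) := by linarith
  refine ⟨inv_pos.2 h2, ?_⟩
  have h3 : (1 - 1 / (p : ℝ))⁻¹ ≤ 2 / p + 1 := by
    rw [inv_le_iff_one_le_mul₀ h2]
    have : (2 / (p : ℝ) + 1) * (1 - 1 / p) = 1 + 1 / p * (1 - 2 * (1 / p)) := by ring
    rw [this]
    have h4 : 0 ≤ 1 / (p : ℝ) := by positivity
    have h5 : 0 ≤ 1 / (p : ℝ) * (1 - 2 * (1 / p)) := mul_nonneg h4 (by linarith)
    linarith
  refine h3.trans ((Real.add_one_le_exp _).trans (Real.exp_le_exp.2 ?_))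
  rw [div_le_div_iff₀ hp0 hL]
  linarith

theorem t_MOA : Run7.h402.PG.S_MOA := by
  classical
  intro B D
  refine ⟨max (Real.exp (32 * B * D)) 64, fun L hL d w k hd hdL hk => ?_⟩
  have hL1 : Real.exp (32 * B * D) ≤ L := (le_max_left _ _).trans hL
  have hL2 : (64 : ℝ) ≤ L := (le_max_right _ _).trans hL
  have hL0 : 0 < L := by linarith
  set S : Finset ℕ := d.primeFactors.filter (fun p => w < p) with hS
  set y : ℕ := ⌊L / 8⌋₊ with hy
  have hS1 : S.filter (fun p => p ≤ y) =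
      (Icc 1 y).filter (fun p => p.Prime ∧ w < p ∧ p ∣ d) := by
    ext p
    simp only [hS, mem_filter, Nat.mem_primeFactors, mem_Icc]
    constructor
    · rintro ⟨⟨⟨h1, h2, -⟩, h3⟩, h4⟩
      exact ⟨⟨h1.one_lt.le, h4⟩, h1, h3, h2⟩
    · rintro ⟨⟨-, h4⟩, h1, h3, h2⟩
      exact ⟨⟨⟨h1, h2, hd⟩, h3⟩, h4⟩
  set R : Finset ℕ := S.filter (fun p => ¬ p ≤ y) with hR
  have hRp : ∀ p ∈ R, p.Prime ∧ L / 8 < p := by
    intro p hp
    simp only [hR, hS, mem_filter, Nat.mem_primeFactors] at hp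
    obtain ⟨⟨⟨h1, -, -⟩, -⟩, h4⟩ := hp
    exact ⟨h1, Nat.lt_of_floor_lt (not_le.1 h4)⟩
  have hsplit : Run7.h402.PG.hh w d = (∏ p ∈ (Icc 1 y).filter (fun p => p.Prime ∧ w < p ∧ p ∣ d),
      (1 - 1 / (p : ℝ))⁻¹) * ∏ p ∈ R, (1 - 1 / (p : ℝ))⁻¹ := by
    unfold Run7.h402.PG.hh
    rw [← hS1, hR, ← hS, Finset.prod_filter_mul_prod_filter_not]
  -- the number of the large primes
  have hm : (R.card : ℝ) * Real.log (L / 8) ≤ D * L := by
    have h1 : (L / 8) ^ R.card ≤ (d : ℝ) := by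
      have h2 : (L / 8) ^ R.card ≤ ∏ p ∈ R, (p : ℝ) := by
        rw [← Finset.prod_const]
        exact Finset.prod_le_prod (fun _ _ => by positivity) fun p hp => (hRp p hp).2.le
      refine h2.trans ?_
      have h3 : ∏ p ∈ R, p ∣ d := by
        refine dvd_trans (Finset.prod_dvd_prod_of_subset R d.primeFactors (fun p => p) ?_)
          (Nat.prod_primeFactors_dvd d)
        exact (Finset.filter_subset _ _).trans (Finset.filter_subset _ _)
      have h5 : ((∏ p ∈ R, p : ℕ) : ℝ) ≤ (d : ℝ) :=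
        Nat.cast_le.2 (Nat.le_of_dvd (Nat.pos_of_ne_zero hd) h3)
      rwa [Nat.cast_prod] at h5
    have h2 := Real.log_le_log (by positivity) (h1.trans hdL)
    rwa [Real.log_pow, Real.log_exp] at h2
  have hlog : Real.log L / 2 ≤ Real.log (L / 8) := by
    have h1 : Real.log L = 2 * Real.log (Real.sqrt L) := by
      rw [Real.log_sqrt hL0.le]; ring
    have h2 : Real.sqrt L ≤ L / 8 := by
      rw [Real.sqrt_le_left (by positivity)]
      nlinarith
    have h3 := Real.log_le_log (Real.sqrt_pos.2 hL0) h2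
    linarith
  have hlogL : 0 < Real.log L := Real.log_pos (by linarith)
  have hmk : (k : ℝ) * (R.card * (16 / L)) ≤ 32 * B * D := by
    have h1 : (R.card : ℝ) * (Real.log L / 2) ≤ D * L :=
      (mul_le_mul_of_nonneg_left hlog (Nat.cast_nonneg _)).trans hm
    have h2 : (k : ℝ) * (R.card * (16 / L)) ≤ (B * Real.log L) * (R.card * (16 / L)) :=
      mul_le_mul_of_nonneg_right hk (by positivity)
    refine h2.trans ?_
    have h3 : (B * Real.log L) * (R.card * (16 / L)) = 32 * B * ((R.card * (Real.log L / 2)) / L) := by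
      field_simp
      ring
    rw [h3]
    refine mul_le_mul_of_nonneg_left ?_ (by positivity)
    rw [div_le_iff₀ hL0]
    exact h1
  have hR1 : (∏ p ∈ R, (1 - 1 / (p : ℝ))⁻¹) ^ k ≤ L := by
    have h1 : ∏ p ∈ R, (1 - 1 / (p : ℝ))⁻¹ ≤ Real.exp (R.card * (16 / L)) := by
      refine (Finset.prod_le_prod (g := fun _ => Real.exp (16 / L))
        (fun p hp => (fac_le (hRp p hp).1.two_le hL0 (hRp p hp).2).1.le)
        fun p hp => (fac_le (hRp p hp).1.two_le hL0 (hRp p hp).2).2).trans (le_of_eq ?_)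
      rw [Finset.prod_const, ← Real.exp_nat_mul]
    have h0 : 0 ≤ ∏ p ∈ R, (1 - 1 / (p : ℝ))⁻¹ :=
      Finset.prod_nonneg fun p hp => (fac_le (hRp p hp).1.two_le hL0 (hRp p hp).2).1.le
    refine (pow_le_pow_left₀ h0 h1 k).trans ?_
    rw [← Real.exp_nat_mul]
    exact (Real.exp_le_exp.2 hmk).trans hL1
  rw [hsplit, mul_pow, mul_comm L]
  rw [Finset.prod_pow]
  refine mul_le_mul_of_nonneg_left hR1 (pow_nonneg (Finset.prod_nonneg fun p hp => ?_) _)
  have hp' : p.Prime := (Finset.mem_filter.1 hp).2.1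
  have h1 : (1 : ℝ) ≤ p := by exact_mod_cast hp'.one_lt.le
  have h2 : 1 / (p : ℝ) ≤ 1 := (div_le_one (by linarith)).2 h1
  exact inv_nonneg.2 (by linarith)

end Run7.h53.PG
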