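import Pool.Agent.Run7.h402.PG.Iface

/-!
# Piece MOB of project PG: expansion of the product
-/

set_option autoImplicit false

open Finset

namespace Run7.h53.PG

theorem t_MOB : Run7.h402.PG.S_MOB := by
  classical
  intro T v P g hP
  have h1 : ∀ n : ℤ, ∏ p ∈ P.filter (fun p : ℕ => (p : ℤ) ∣ n), (1 + g p) =
      ∑ Q ∈ P.powerset, if ((∏ p ∈ Q, p : ℕ) : ℤ) ∣ n then ∏ p ∈ Q, g p else 0 := by
    intro n
    rw [Finset.prod_one_add, ← Finset.sum_filter]
    refine Finset.sum_congr ?_ fun _ _ => rfl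
    ext Q
    rw [Finset.mem_powerset, Finset.mem_filter, Finset.mem_powerset]
    constructor
    · intro h
      have hQP : Q ⊆ P := h.trans (Finset.filter_subset _ _)
      refine ⟨hQP, ?_⟩
      rw [Int.natCast_dvd]
      refine Finset.prod_primes_dvd _ (fun p hp => (hP p (hQP hp)).prime) fun p hp => ?_
      rw [← Int.natCast_dvd]
      exact (Finset.mem_filter.1 (h hp)).2
    · rintro ⟨h2, h3⟩ p hp
      rw [Finset.mem_filter]
      refine ⟨h2 hp, dvd_trans ?_ h3⟩
      exact_mod_cast Finset.dvd_prod_of_mem (fun p : ℕ => p) hp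
  simp only [h1]
  rw [Finset.sum_comm]
  refine Finset.sum_congr rfl fun Q _ => ?_
  rw [← Finset.sum_filter, Finset.sum_const, nsmul_eq_mul, mul_comm]

end Run7.h53.PG
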